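import Pool.Agent.N891.KS.Stm

/-!
# Project KS (helper891), MP_5bdae7_gt: the statement S_DIFF (proof by helper281)
-/

set_option autoImplicit false

open MeasureTheory Set Metric
open scoped ENNReal Topology ContDiff NNReal

noncomputable section

namespace Pool.Agent.N281.KS

open Pool.Agent.N891.KS

theorem lip_sum (f : Fin 3 → E3 → E3) (C : Fin 3 → ℝ≥0) (hC : ∀ i, LipschitzWith (C i) (f i))
    (a : Fin 3 → ℝ) (ha : ∀ i, |a i| ≤ (2 * (∑ i, (C i : ℝ) + 1))⁻¹) :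
    LipschitzWith (1 / 2 : ℝ≥0) (fun x => ∑ i, a i • f i x) := by
  apply LipschitzWith.of_dist_le_mul
  intro x y
  have hD : 0 < ∑ i, (C i : ℝ) + 1 := by positivity
  rw [dist_eq_norm, ← Finset.sum_sub_distrib]
  have h1 : ∀ i ∈ (Finset.univ : Finset (Fin 3)), ‖a i • f i x - a i • f i y‖ ≤
      (2 * (∑ i, (C i : ℝ) + 1))⁻¹ * ((C i : ℝ) * dist x y) := by
    intro i _
    rw [← smul_sub, norm_smul, Real.norm_eq_abs]
    refine mul_le_mul (ha i) ?_ (norm_nonneg _) (by positivity)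
    rw [← dist_eq_norm]
    exact (hC i).dist_le_mul x y
  refine (norm_sum_le_of_le _ h1).trans ?_
  rw [← Finset.mul_sum, ← Finset.sum_mul]
  have h2 : (∑ i, (C i : ℝ)) ≤ ∑ i, (C i : ℝ) + 1 := by linarith
  have h3 : (2 * (∑ i, (C i : ℝ) + 1))⁻¹ * ((∑ i, (C i : ℝ)) * dist x y) ≤
      (2 * (∑ i, (C i : ℝ) + 1))⁻¹ * ((∑ i, (C i : ℝ) + 1) * dist x y) := by
    refine mul_le_mul_of_nonneg_left (mul_le_mul_of_nonneg_right h2 dist_nonneg) (by positivity)
  refine h3.trans (le_of_eq ?_)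
  push_cast
  field_simp

/-- small compactly supported smooth perturbations of the identity are diffeomorphisms -/
theorem t_DIFF : Pool.Agent.N891.KS.S_DIFF := by
  intro f hf hcs
  have hL : ∀ i, ∃ C : ℝ≥0, LipschitzWith C (f i) := fun i =>
    ContDiff.lipschitzWith_of_hasCompactSupport (hcs i) (hf i) (by simp)
  choose C hC using hL
  refine ⟨(2 * (∑ i, (C i : ℝ) + 1))⁻¹, by positivity, ?_⟩
  intro a ha
  set P : E3 → E3 := fun x => ∑ i, a i • f i x with hP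
  have hlip : LipschitzWith (1 / 2 : ℝ≥0) P := lip_sum f C hC a (fun i => (ha i).le)
  have hPd : ContDiff ℝ ∞ P := ContDiff.sum fun i _ => (hf i).const_smul (a i)
  have happ : ApproximatesLinearOn (fun x => x + P x)
      ((ContinuousLinearEquiv.refl ℝ E3 : E3 ≃L[ℝ] E3) : E3 →L[ℝ] E3) univ (1 / 2 : ℝ≥0) := by
    intro x _ y _
    have e : x + P x - (y + P y) - ((ContinuousLinearEquiv.refl ℝ E3 : E3 ≃L[ℝ] E3) :
        E3 →L[ℝ] E3) (x - y) = P x - P y := by
      change x + P x - (y + P y) - (x - y) = P x - P y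
      abel
    rw [e, ← dist_eq_norm, ← dist_eq_norm]
    exact hlip.dist_le_mul x y
  have hN : ((1 / 2 : ℝ≥0)) < ‖(((ContinuousLinearEquiv.refl ℝ E3).symm : E3 ≃L[ℝ] E3) :
      E3 →L[ℝ] E3)‖₊⁻¹ := by
    have e : ‖(((ContinuousLinearEquiv.refl ℝ E3).symm : E3 ≃L[ℝ] E3) : E3 →L[ℝ] E3)‖₊ = 1 := by
      have e1 : (((ContinuousLinearEquiv.refl ℝ E3).symm : E3 ≃L[ℝ] E3) : E3 →L[ℝ] E3) =
          ContinuousLinearMap.id ℝ E3 := rfl
      rw [e1]
      ext
      rw [coe_nnnorm, ContinuousLinearMap.norm_id, NNReal.coe_one]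
    rw [e, inv_one]
    exact NNReal.half_lt_self one_ne_zero
  let h : E3 ≃ₜ E3 := happ.toHomeomorph _ (Or.inr hN)
  have hh : ∀ x, h x = x + P x := fun x => rfl
  have hd : ∀ x, ‖-fderiv ℝ P x‖ < 1 := by
    intro x
    rw [norm_neg]
    have h1 : ‖fderiv ℝ P x‖ ≤ ((1 / 2 : ℝ≥0) : ℝ) := norm_fderiv_le_of_lipschitz ℝ hlip
    refine lt_of_le_of_lt h1 ?_
    push_cast
    norm_num
  let L : E3 → (E3 ≃L[ℝ] E3) := fun x => ContinuousLinearEquiv.ofUnit (Units.oneSub _ (hd x))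
  have hder : ∀ x, HasFDerivAt h (L x : E3 →L[ℝ] E3) x := by
    intro x
    have h1 : HasFDerivAt (fun y => y + P y) (ContinuousLinearMap.id ℝ E3 + fderiv ℝ P x) x :=
      (hasFDerivAt_id x).add ((hPd.differentiable (by simp)) x).hasFDerivAt
    have h2 : (L x : E3 →L[ℝ] E3) = ContinuousLinearMap.id ℝ E3 + fderiv ℝ P x := by
      ext1 v
      change ((1 : E3 →L[ℝ] E3) - -fderiv ℝ P x) v = _
      rw [sub_neg_eq_add]
      rfl
    rw [h2]
    exact h1
  have hcd : ContDiff ℝ ∞ (h : E3 → E3) := contDiff_id.add hPd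
  refine ⟨h.symm, h.contDiff_symm hder hcd, ?_, ?_⟩
  · intro x
    exact h.symm_apply_apply x
  · intro x
    exact h.apply_symm_apply x

end Pool.Agent.N281.KS
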